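import Pool.Agent.Helper16.BZ.Stmts
import Pool.Agent.Helper40.Wiener

/-!
Orthogonality of the characters along the orbits of an affine unipotent map (module PO).
-/

open Finset Filter MeasureTheory Topology
open scoped ComplexConjugate InnerProductSpace

namespace Pool.Agent.Helper16.BZ

open Pool.Agent.Helper16.AZ (T E Op mm Eig PP ST_VDH ST_MSR ST_MRF ST_FPV ST_TLR)
open Pool.Agent.Helper16.MD (MS PB Am RW Rich)
open UnitAddTorus (mFourier)

theorem po_circ {r : ℕ} (X : Fin r → ℤ) (y : T r) :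
    mFourier X y = ((AddCircle.toCircle (∑ i, X i • y i) : Circle) : ℂ) := by
  show ∏ i, fourier (X i) (y i) = _
  have h2 : ∀ s : Finset (Fin r), ∏ i ∈ s, fourier (X i) (y i) =
      ((AddCircle.toCircle (∑ i ∈ s, X i • y i) : Circle) : ℂ) := by
    intro s
    induction s using Finset.induction_on with
    | empty => simp
    | insert a s ha ih =>
      rw [Finset.prod_insert ha, Finset.sum_insert ha, ih, AddCircle.toCircle_add,
        Circle.coe_mul, fourier_apply]
  exact h2 _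

theorem po_norm {r : ℕ} (X : Fin r → ℤ) (y : T r) : ‖mFourier X y‖ = 1 := by
  rw [po_circ]; exact Circle.norm_coe _

theorem po_zero {r : ℕ} (X : Fin r → ℤ) : mFourier X (0 : T r) = 1 := by
  rw [po_circ]; simp

theorem po_conj {r : ℕ} (X : Fin r → ℤ) (y : T r) :
    mFourier X y * conj (mFourier X y) = 1 := by
  rw [Complex.mul_conj, Complex.normSq_eq_norm_sq, po_norm]; simp

theorem po_S {r : ℕ} {A : Matrix (Fin r) (Fin r) ℤ} {β : T r} {S : T r → T r} (hS : Aff A β S)
    (X : Fin r → ℤ) (w : T r) :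
    mFourier X (S w) = mFourier (Matrix.vecMul X A) w * mFourier X β := by
  rw [po_circ, po_circ, po_circ, ← Circle.coe_mul, ← AddCircle.toCircle_add]
  congr 2
  have h1 : ∀ i, X i • S w i = (∑ j, (X i * A i j) • w j) + X i • β i := by
    intro i
    rw [hS w i, smul_add, Finset.smul_sum]
    congr 1
    refine Finset.sum_congr rfl fun j _ => ?_
    rw [mul_smul]
  rw [Finset.sum_congr rfl fun i _ => h1 i, Finset.sum_add_distrib, Finset.sum_comm]
  congr 1
  refine Finset.sum_congr rfl fun j _ => ?_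
  rw [← Finset.sum_smul]
  rfl

theorem po_iter {r : ℕ} {A : Matrix (Fin r) (Fin r) ℤ} {β : T r} {S : T r → T r}
    (hS : Aff A β S) (X : Fin r → ℤ) (n : ℕ) (w : T r) :
    mFourier X (S^[n] w) = mFourier (Matrix.vecMul X (A ^ n)) w * mFourier X (S^[n] 0) := by
  induction n generalizing w with
  | zero => simp [po_zero]
  | succ n ih =>
    rw [Function.iterate_succ_apply, ih (S w), Function.iterate_succ_apply, ih (S 0),
      po_S hS _ w, po_S hS _ 0, Matrix.vecMul_vecMul, ← pow_succ, po_zero]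
    ring

/-- the sequence -/
noncomputable def poA {r : ℕ} (S : T r → T r) (P P' : ℕ) (X X' : Fin r → ℤ) (x x' : T r)
    (y : ℕ) : ℂ := mFourier X (S^[P * y] x) * conj (mFourier X' (S^[P' * y] x'))

theorem po_a_norm {r : ℕ} (S : T r → T r) (P P' : ℕ) (X X' : Fin r → ℤ) (x x' : T r) (y : ℕ) :
    ‖poA S P P' X X' x x' y‖ = 1 := by
  unfold poA
  rw [norm_mul, RCLike.norm_conj, po_norm, po_norm, one_mul]

theorem po_a_shift {r : ℕ} (S : T r → T r) (P P' : ℕ) (X X' : Fin r → ℤ) (x x' : T r)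
    (y h : ℕ) :
    poA S P P' X X' x x' (y + h) = poA S P P' X X' (S^[P * h] x) (S^[P' * h] x') y := by
  unfold poA
  rw [mul_add, mul_add, Function.iterate_add_apply, Function.iterate_add_apply]

theorem po_sub {r : ℕ} (A : Matrix (Fin r) (Fin r) ℤ) (X : Fin r → ℤ) (n : ℕ) (w : T r) :
    mFourier (Matrix.vecMul X (A ^ n - 1)) w =
      mFourier (Matrix.vecMul X (A ^ n)) w * conj (mFourier X w) := by
  rw [Matrix.vecMul_sub, Matrix.vecMul_one, sub_eq_add_neg, UnitAddTorus.mFourier_add,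
    UnitAddTorus.mFourier_neg]

theorem po_corr {r : ℕ} {A : Matrix (Fin r) (Fin r) ℤ} {β : T r} {S : T r → T r}
    (hS : Aff A β S) (P P' : ℕ) (X X' : Fin r → ℤ) (x x' : T r) (y d : ℕ) :
    conj (poA S P P' X X' x x' y) * poA S P P' X X' x x' (y + d) =
      (mFourier X (S^[P * d] 0) * conj (mFourier X' (S^[P' * d] 0))) *
      poA S P P' (Matrix.vecMul X (A ^ (P * d) - 1)) (Matrix.vecMul X' (A ^ (P' * d) - 1))
        x x' y := by
  unfold poA
  have e1 : P * (y + d) = P * d + P * y := by ring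
  have e2 : P' * (y + d) = P' * d + P' * y := by ring
  rw [e1, e2, Function.iterate_add_apply, Function.iterate_add_apply,
    po_iter hS X (P * d) (S^[P * y] x), po_iter hS X' (P' * d) (S^[P' * y] x'),
    po_sub, po_sub]
  simp only [map_mul, Complex.conj_conj]
  ring

theorem po_vdh (hv : ST_VDH) (a : ℕ → ℂ) (ha : ∀ y, ‖a y‖ = 1)
    (hc : ∀ h d : ℕ, 1 ≤ d → Tendsto (fun M : ℕ =>
      (∑ y ∈ Icc 1 M, conj (a (y + h)) * a (y + h + d)) / (M : ℂ)) atTop (𝓝 0)) :
    Tendsto (fun M : ℕ => (∑ y ∈ Icc 1 M, a y) / (M : ℂ)) atTop (𝓝 0) := by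
  have hre : ∀ h d : ℕ, 1 ≤ d → Tendsto (fun M : ℕ =>
      (∑ y ∈ Icc 1 M, (conj (a (y + h)) * a (y + h + d)).re) / (M : ℝ)) atTop (𝓝 0) := by
    intro h d hd
    have h1 := (Complex.continuous_re.tendsto 0).comp (hc h d hd)
    simp only [Complex.zero_re] at h1
    refine h1.congr fun M => ?_
    have : ((M : ℕ) : ℂ) = ((M : ℝ) : ℂ) := by push_cast; rfl
    simp only [Function.comp_apply, this, Complex.div_ofReal_re, Complex.re_sum]
  have hterm : ∀ h h' : ℕ, Tendsto (fun M : ℕ =>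
      (∑ y ∈ Icc 1 M, (inner ℂ (a (y + h)) (a (y + h')) : ℂ).re) / (M : ℝ)) atTop
      (𝓝 (if h = h' then 1 else 0)) := by
    intro h h'
    rcases lt_trichotomy h h' with hlt | heq | hgt
    · rw [if_neg hlt.ne]
      obtain ⟨d, rfl⟩ := Nat.exists_eq_add_of_lt hlt
      refine (hre h (d + 1) (by omega)).congr fun M => ?_
      congr 1
      refine Finset.sum_congr rfl fun y _ => ?_
      have e0 : y + (h + d + 1) = y + h + (d + 1) := by ring
      rw [RCLike.inner_apply, mul_comm, e0]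
    · subst heq
      rw [if_pos rfl]
      refine tendsto_const_nhds.congr' ?_
      filter_upwards [eventually_gt_atTop 0] with M hM
      have h2 : ∀ y ∈ Icc 1 M, (inner ℂ (a (y + h)) (a (y + h)) : ℂ).re = 1 := by
        intro y _
        rw [RCLike.inner_apply, Complex.mul_conj, Complex.normSq_eq_norm_sq, ha]
        simp
      rw [Finset.sum_congr rfl h2]
      have hM2 : (M : ℝ) ≠ 0 := by exact_mod_cast hM.ne'
      simp [hM2]
    · rw [if_neg hgt.ne']
      obtain ⟨d, rfl⟩ := Nat.exists_eq_add_of_lt hgt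
      refine (hre h' (d + 1) (by omega)).congr fun M => ?_
      congr 1
      refine Finset.sum_congr rfl fun y _ => ?_
      rw [RCLike.inner_apply]
      have h3 : (conj (a (y + h')) * a (y + h' + (d + 1))).re =
          (conj (conj (a (y + h')) * a (y + h' + (d + 1)))).re := by
        rw [Complex.conj_re]
      have e0 : y + (h' + d + 1) = y + h' + (d + 1) := by ring
      rw [h3, map_mul, Complex.conj_conj, e0]
  have hlim : ∀ H : ℕ, 1 ≤ H → Tendsto (fun M : ℕ =>
      (∑ h ∈ range H, ∑ h' ∈ range H,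
        (∑ y ∈ Icc 1 M, (inner ℂ (a (y + h)) (a (y + h')) : ℂ).re) / (M : ℝ)) / (H : ℝ) ^ 2 +
        4 * (H : ℝ) * (1 / (M : ℝ)) + 4 * (H : ℝ) ^ 2 * (1 / (M : ℝ)) ^ 2) atTop
      (𝓝 (1 / (H : ℝ))) := by
    intro H hH
    have hH0 : (H : ℝ) ≠ 0 := by
      have : 0 < H := hH
      exact_mod_cast this.ne'
    have h1 : Tendsto (fun M : ℕ => ∑ h ∈ range H, ∑ h' ∈ range H,
        (∑ y ∈ Icc 1 M, (inner ℂ (a (y + h)) (a (y + h')) : ℂ).re) / (M : ℝ)) atTop
        (𝓝 (∑ h ∈ range H, ∑ h' ∈ range H, if h = h' then (1 : ℝ) else 0)) :=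
      tendsto_finsetSum _ fun h _ => tendsto_finsetSum _ fun h' _ => hterm h h'
    have h2 : (∑ h ∈ range H, ∑ h' ∈ range H, if h = h' then (1 : ℝ) else 0) = H := by
      have : ∀ h ∈ range H, (∑ h' ∈ range H, if h = h' then (1 : ℝ) else 0) = 1 := by
        intro h hh
        rw [Finset.sum_ite_eq]
        simp [hh]
      rw [Finset.sum_congr rfl this]; simp
    rw [h2] at h1
    have h3 : Tendsto (fun M : ℕ => 1 / (M : ℝ)) atTop (𝓝 0) :=
      tendsto_one_div_atTop_nhds_zero_nat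
    have h4 := ((h1.div_const ((H : ℝ) ^ 2)).add (h3.const_mul (4 * (H : ℝ)))).add
      ((h3.pow 2).const_mul (4 * (H : ℝ) ^ 2))
    have h5 : (H : ℝ) / (H : ℝ) ^ 2 + 4 * (H : ℝ) * 0 + 4 * (H : ℝ) ^ 2 * 0 ^ 2 =
        1 / (H : ℝ) := by field_simp; ring
    rw [h5] at h4
    exact h4
  rw [Metric.tendsto_atTop]
  intro ε hε
  obtain ⟨n, hn⟩ := exists_nat_one_div_lt (show (0 : ℝ) < ε ^ 2 by positivity)
  have hH := hlim (n + 1) (by omega)
  have hlt : 1 / (((n + 1 : ℕ) : ℝ)) < ε ^ 2 := by push_cast; exact hn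
  have hev := (hH.eventually_lt_const hlt).and (eventually_ge_atTop 1)
  rw [eventually_atTop] at hev
  obtain ⟨N, hN⟩ := hev
  refine ⟨N, fun M hM => ?_⟩
  obtain ⟨h1, h2⟩ := hN M hM
  have hv1 := hv ℂ a M (n + 1) (fun y => (ha y).le) (by omega)
  set H : ℝ := ((n + 1 : ℕ) : ℝ) with hHdef
  have hHpos : 0 < H := by rw [hHdef]; positivity
  have hMpos : (0 : ℝ) < M := by exact_mod_cast h2
  rw [dist_zero_right, norm_div, Complex.norm_natCast]
  refine lt_of_pow_lt_pow_left₀ 2 hε.le (lt_of_le_of_lt ?_ h1)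
  rw [div_pow, div_le_iff₀ (by positivity)]
  have h3 : (∑ h ∈ range (n + 1), ∑ h' ∈ range (n + 1),
      (∑ y ∈ Icc 1 M, (inner ℂ (a (y + h)) (a (y + h')) : ℂ).re) / (M : ℝ)) =
      (∑ h ∈ range (n + 1), ∑ h' ∈ range (n + 1),
      ∑ y ∈ Icc 1 M, (inner ℂ (a (y + h)) (a (y + h')) : ℂ).re) / (M : ℝ) := by
    rw [Finset.sum_div]
    refine Finset.sum_congr rfl fun h _ => ?_
    rw [Finset.sum_div]
  rw [h3]
  set Q : ℝ := ∑ h ∈ range (n + 1), ∑ h' ∈ range (n + 1),
      ∑ y ∈ Icc 1 M, (inner ℂ (a (y + h)) (a (y + h')) : ℂ).re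
  set s : ℝ := ‖∑ y ∈ Icc 1 M, a y‖
  have h6 : (Q / (M : ℝ) / H ^ 2 + 4 * H * (1 / (M : ℝ)) + 4 * H ^ 2 * (1 / (M : ℝ)) ^ 2) *
      (M : ℝ) ^ 2 = (M * Q + 4 * H ^ 3 * M + 4 * H ^ 4) / H ^ 2 := by
    field_simp
  rw [h6, le_div_iff₀ (by positivity)]
  linarith

theorem po_icc (f : ℕ → ℂ) (M : ℕ) : ∑ y ∈ Icc 1 M, f y = ∑ n ∈ range M, f (n + 1) := by
  induction M with
  | zero => simp
  | succ M ih => rw [Finset.sum_Icc_succ_top (by omega), ih, Finset.sum_range_succ]

theorem po_base {r : ℕ} {A : Matrix (Fin r) (Fin r) ℤ} {β : T r} {S : T r → T r}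
    (hS : Aff A β S) (hM : Min A β) (P P' : ℕ) (X X' : Fin r → ℤ) (x x' : T r)
    (hX : Matrix.vecMul X (A - 1) = 0) (hX' : Matrix.vecMul X' (A - 1) = 0)
    (hne : (P : ℤ) • X ≠ (P' : ℤ) • X') :
    Tendsto (fun M : ℕ => (∑ y ∈ Icc 1 M, poA S P P' X X' x x' y) / (M : ℂ)) atTop (𝓝 0) := by
  have fix : ∀ Y : Fin r → ℤ, Matrix.vecMul Y (A - 1) = 0 → Matrix.vecMul Y A = Y := by
    intro Y hY
    rw [Matrix.vecMul_sub, Matrix.vecMul_one, sub_eq_zero] at hY
    exact hY
  have itr : ∀ Y : Fin r → ℤ, Matrix.vecMul Y (A - 1) = 0 → ∀ (n : ℕ) (z : T r),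
      mFourier Y (S^[n] z) = mFourier Y z * mFourier Y β ^ n := by
    intro Y hY n z
    induction n with
    | zero => simp
    | succ n ih =>
      rw [Function.iterate_succ_apply', po_S hS, fix Y hY, ih, pow_succ]
      ring
  set u : ℂ := mFourier X β with hu
  set u' : ℂ := mFourier X' β with hu'
  set w : ℂ := u ^ P * conj (u' ^ P') with hw
  have hu1 : ‖u‖ = 1 := po_norm X β
  have hu1' : ‖u'‖ = 1 := po_norm X' β
  have hw1 : ‖w‖ = 1 := by
    rw [hw, norm_mul, RCLike.norm_conj, norm_pow, norm_pow, hu1, hu1']; simp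
  have hw2 : w ≠ 1 := by
    intro hw3
    have h1 : u ^ P = u' ^ P' := by
      have h2 : u' ^ P' * conj (u' ^ P') = 1 := by
        rw [Complex.mul_conj, Complex.normSq_eq_norm_sq, norm_pow, hu1']; simp
      calc u ^ P = u ^ P * (u' ^ P' * conj (u' ^ P')) := by rw [h2, mul_one]
        _ = w * u' ^ P' := by rw [hw]; ring
        _ = u' ^ P' := by rw [hw3, one_mul]
    rw [hu, hu', po_circ, po_circ, ← Circle.coe_pow, ← Circle.coe_pow,
      ← AddCircle.toCircle_nsmul, ← AddCircle.toCircle_nsmul] at h1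
    have h2 := AddCircle.injective_toCircle (T := (1 : ℝ)) one_ne_zero (Subtype.ext h1)
    have hY0 : (P : ℤ) • X - (P' : ℤ) • X' ≠ 0 := sub_ne_zero.mpr hne
    refine hM.2 ((P : ℤ) • X - (P' : ℤ) • X') hY0 ?_ ?_
    · rw [Matrix.sub_vecMul, Matrix.smul_vecMul, Matrix.smul_vecMul, fix X hX, fix X' hX']
    · have h3 : ∀ i, ((P : ℤ) • X - (P' : ℤ) • X') i • β i =
          P • (X i • β i) - P' • (X' i • β i) := by
        intro i
        rw [Pi.sub_apply, Pi.smul_apply, Pi.smul_apply, smul_eq_mul, smul_eq_mul, sub_smul,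
          mul_smul, mul_smul, natCast_zsmul, natCast_zsmul]
      rw [Finset.sum_congr rfl fun i _ => h3 i, Finset.sum_sub_distrib, ← Finset.smul_sum,
        ← Finset.smul_sum, h2, sub_self]
  have hterm : ∀ y : ℕ, poA S P P' X X' x x' y = (mFourier X x * conj (mFourier X' x')) * w ^ y := by
    intro y
    unfold poA
    rw [itr X hX, itr X' hX', hw, mul_pow, map_mul, map_pow, map_pow, ← pow_mul, ← pow_mul]
    ring
  have h4 := (Pool.Agent.Helper40.Wiener.geom_zero hw1 hw2).const_mul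
    (mFourier X x * conj (mFourier X' x') * w)
  rw [mul_zero] at h4
  refine h4.congr fun M => ?_
  rw [po_icc, ← mul_div_assoc, Finset.mul_sum]
  congr 1
  refine Finset.sum_congr rfl fun n _ => ?_
  rw [hterm, pow_succ]; ring

theorem po_main (hv : ST_VDH) {r : ℕ} {A : Matrix (Fin r) (Fin r) ℤ} {β : T r} {S : T r → T r}
    (hS : Aff A β S) (hM : Min A β) (P P' : ℕ) (k : ℕ) :
    ∀ (X X' : Fin r → ℤ) (x x' : T r),
    Matrix.vecMul X ((A - 1) ^ (k + 1)) = 0 → Matrix.vecMul X' ((A - 1) ^ (k + 1)) = 0 →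
    (P : ℤ) ^ (k + 1) • Matrix.vecMul X ((A - 1) ^ k) ≠
      (P' : ℤ) ^ (k + 1) • Matrix.vecMul X' ((A - 1) ^ k) →
    Tendsto (fun M : ℕ => (∑ y ∈ Icc 1 M, poA S P P' X X' x x' y) / (M : ℂ)) atTop (𝓝 0) := by
  induction k with
  | zero =>
    intro X X' x x' hX hX' hne
    refine po_base hS hM P P' X X' x x' (by simpa using hX) (by simpa using hX') ?_
    simpa using hne
  | succ k ih =>
    intro X X' x x' hX hX' hne
    have gs : ∀ (Y : Fin r → ℤ) (n : ℕ), Matrix.vecMul Y ((A - 1) ^ (k + 1 + 1)) = 0 →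
        Matrix.vecMul (Matrix.vecMul Y (A ^ n - 1)) ((A - 1) ^ k) =
          (n : ℤ) • Matrix.vecMul Y ((A - 1) ^ (k + 1)) ∧
        Matrix.vecMul (Matrix.vecMul Y (A ^ n - 1)) ((A - 1) ^ (k + 1)) = 0 := by
      intro Y n hY
      have hfix : Matrix.vecMul (Matrix.vecMul Y ((A - 1) ^ (k + 1))) A =
          Matrix.vecMul Y ((A - 1) ^ (k + 1)) := by
        rw [pow_succ, ← Matrix.vecMul_vecMul, Matrix.vecMul_sub, Matrix.vecMul_one,
          sub_eq_zero] at hY
        exact hY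
      have hpow : ∀ j : ℕ, Matrix.vecMul (Matrix.vecMul Y ((A - 1) ^ (k + 1))) (A ^ j) =
          Matrix.vecMul Y ((A - 1) ^ (k + 1)) := by
        intro j
        induction j with
        | zero => simp
        | succ j ihj => rw [pow_succ A j, ← Matrix.vecMul_vecMul, ihj, hfix]
      have hgeom : A ^ n - 1 = (A - 1) * ∑ j ∈ range n, A ^ j := (mul_geom_sum A n).symm
      have hcomm : Commute (A - 1) (∑ j ∈ range n, A ^ j) := by
        refine Commute.sum_right _ _ _ fun j _ => ?_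
        exact ((Commute.refl A).sub_left (Commute.one_left A)).pow_right j
      have e1 : (A ^ n - 1) * (A - 1) ^ k = (A - 1) ^ (k + 1) * ∑ j ∈ range n, A ^ j := by
        rw [hgeom, mul_assoc, ← (hcomm.pow_left k).eq, ← mul_assoc, ← pow_succ']
      have e2 : (A ^ n - 1) * (A - 1) ^ (k + 1) =
          (A - 1) ^ (k + 1 + 1) * ∑ j ∈ range n, A ^ j := by
        rw [hgeom, mul_assoc, ← (hcomm.pow_left (k + 1)).eq, ← mul_assoc, ← pow_succ']
      constructor
      · rw [Matrix.vecMul_vecMul, e1, ← Matrix.vecMul_vecMul, Matrix.vecMul_sum]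
        rw [Finset.sum_congr rfl fun j _ => hpow j, Finset.sum_const, card_range,
          ← natCast_zsmul]
      · rw [Matrix.vecMul_vecMul, e2, ← Matrix.vecMul_vecMul, hY, Matrix.zero_vecMul]
    refine po_vdh hv _ (po_a_norm S P P' X X' x x') ?_
    intro h d hd
    have h1 := gs X (P * d) hX
    have h2 := gs X' (P' * d) hX'
    have h3 := ih (Matrix.vecMul X (A ^ (P * d) - 1)) (Matrix.vecMul X' (A ^ (P' * d) - 1))
      (S^[P * h] x) (S^[P' * h] x') h1.2 h2.2 (by
        rw [h1.1, h2.1, smul_smul, smul_smul]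
        intro h4
        apply hne
        have h5 : (d : ℤ) • ((P : ℤ) ^ (k + 1 + 1) • Matrix.vecMul X ((A - 1) ^ (k + 1))) =
            (d : ℤ) • ((P' : ℤ) ^ (k + 1 + 1) • Matrix.vecMul X' ((A - 1) ^ (k + 1))) := by
          rw [smul_smul, smul_smul]
          have e3 : (d : ℤ) * (P : ℤ) ^ (k + 1 + 1) = (P : ℤ) ^ (k + 1) * ((P * d : ℕ) : ℤ) := by
            push_cast; ring
          have e4 : (d : ℤ) * (P' : ℤ) ^ (k + 1 + 1) =
              (P' : ℤ) ^ (k + 1) * ((P' * d : ℕ) : ℤ) := by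
            push_cast; ring
          rw [e3, e4]; exact h4
        have hd0 : (d : ℤ) ≠ 0 := by
          have : d ≠ 0 := by omega
          exact_mod_cast this
        exact smul_right_injective _ hd0 h5)
    have h4 := h3.const_mul (mFourier X (S^[P * d] 0) * conj (mFourier X' (S^[P' * d] 0)))
    rw [mul_zero] at h4
    refine h4.congr fun M => ?_
    rw [← mul_div_assoc, Finset.mul_sum]
    congr 1
    refine Finset.sum_congr rfl fun y _ => ?_
    rw [← po_corr hS, ← po_a_shift, ← po_a_shift]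
    have e5 : y + d + h = y + h + d := by ring
    rw [e5]

theorem st_PO (hv : ST_VDH) : ST_PO := by
  intro r A β S hS hM k P P' X X' x _ _ hX hX' hne
  exact po_main hv hS hM P P' k X X' x x hX hX' hne

end Pool.Agent.Helper16.BZ
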